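import Pool.Agent.Helper90.PD.BTPc

/-!
# Project PD, block P4 (`StmtBTPL`): the hypothesis `BTP` for a rational root
-/

set_option autoImplicit false

namespace Pool.Agent.PD

open Polynomial NumberField IsDedekindDomain
open Pool.Agent.HG
open Pool.Agent.Helper99.HG (CD pf Nm)
open Pool.Agent.ML (HasMu sym chl chl_eq l_dvd57 root_pow_inv57 cdL OkL)
open scoped Pointwise IntermediateField

/-- **Block P4** -/
theorem btpl : StmtBTPL := by
  intro hB hSel hMe k L _ _ _ _ _ _ f X ℓ _ hp hmu hM a ha hm hfin ι Vι w g hw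
  classical
  obtain ⟨C, A, hC, hlab⟩ := lab90 X hB hSel hMe ha hp hM hmu (w (algebraMap k L a))
    fun j _ => hw j _
  refine ⟨C, A, hC, ?_⟩
  intro (m : Finset (Pr k × Fin ℓ)) hmEx (τ : Pr k × Fin ℓ → (Σ _ : L × rootsOfUnity ℓ k, ι)) hτ
    (t : Pr k × Fin ℓ → L → rootsOfUnity ℓ k) Y h hY hlog hNm
    (o : Pr k × Fin ℓ → (Σ _ : L × rootsOfUnity ℓ k, ι)) (E : Finset (Finset (Pr k × Fin ℓ))) hE
  obtain ⟨hh2, hYh⟩ := two_le90 hY hlog
  have hY' : (2 : ℝ) ≤ Y := by exact_mod_cast hY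
  have hh' : (2 : ℝ) ≤ h := by exact_mod_cast hh2
  have hlY : 0 < Real.log Y := Real.log_pos (by linarith)
  have hlh : 0 < Real.log h := Real.log_pos (by linarith)
  set D := cdL X ℓ ℓ hm hfin ι Vι (fun _ _ => True) w g with hD
  -- the weights
  let II : Pr k × Fin ℓ → Finset L := fun p => D.I p (τ p) (X.cmp hm (algebraMap k L a))
  have hII : ∀ p, ∀ ρ ∈ II p, ρ = algebraMap k L a := by
    intro p ρ hρ
    have h1 := Finset.mem_filter.1 (Finset.mem_of_mem_erase hρ)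
    exact X.cmp_alpha ha hm (X.R_sub p.1 h1.1) h1.2
  obtain ⟨m₀, hm₀⟩ : ∃ m₀ : Finset (Pr k × Fin ℓ), m₀ = m.filter fun p => algebraMap k L a ∈ II p :=
    ⟨_, rfl⟩
  have hm₀' : ∀ p ∈ m₀, p ∈ m ∧ algebraMap k L a ∈ II p := fun p hp' =>
    Finset.mem_filter.1 (hm₀ ▸ hp')
  have hwt : (1 / ℓ : ℝ) ^ m₀.card = ∏ p ∈ m, (1 / ℓ : ℝ) ^ (II p).card := by
    rw [hm₀, ← Finset.prod_const, Finset.prod_filter]
    refine Finset.prod_congr rfl fun p _ => ?_
    split_ifs with h1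
    · have h2 : II p = {algebraMap k L a} := by
        ext ρ
        rw [Finset.mem_singleton]
        exact ⟨hII p ρ, fun h3 => h3 ▸ h1⟩
      rw [h2, Finset.card_singleton, pow_one]
    · have h2 : II p = ∅ := by
        rw [Finset.eq_empty_iff_forall_notMem]
        intro ρ hρ
        have h3 := hII p ρ hρ
        exact h1 (h3 ▸ hρ)
      rw [h2, Finset.card_empty, pow_zero]
  have hgoal : (E.card : ℝ) ≤ C * ((∏ p ∈ m, (1 / ℓ : ℝ) ^ (II p).card) *
      (h / Real.log Y * (Real.log h / Real.log Y) ^ (ℓ - 2))) := by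
    rcases Finset.eq_empty_or_nonempty E with hem | ⟨e₀, he₀⟩
    · rw [hem, Finset.card_empty, Nat.cast_zero]
      refine mul_nonneg hC.le (mul_nonneg (Finset.prod_nonneg fun p _ => by positivity) ?_)
      positivity
    -- the labels
    have hminj : Set.InjOn Prod.fst (m : Set (Pr k × Fin ℓ)) := by
      obtain ⟨-, ⟨m', h1, h2, -⟩, -⟩ := hE e₀ he₀
      exact Set.InjOn.mono (Finset.coe_subset.2 h2) h1
    have hGdEx : ∀ p : Pr k × Fin ℓ, p ∉ D.Ex → Gd X.M p.1 := by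
      intro p hp'
      by_contra h2
      exact hp' (Finset.mem_product.2 ⟨hfin.mem_toFinset.2 h2, Finset.mem_univ _⟩)
    obtain ⟨MM0, hMM0⟩ : ∃ MM0 : Finset (Pr k), MM0 = m₀.image Prod.fst := ⟨_, rfl⟩
    have hm₀inj : Set.InjOn Prod.fst (m₀ : Set (Pr k × Fin ℓ)) :=
      Set.InjOn.mono (fun p hp' => (hm₀' p hp').1) hminj
    have hcard : MM0.card = m₀.card := by
      rw [hMM0, Finset.card_image_of_injOn hm₀inj]
    have hnm : (∏ p ∈ MM0, nm p) ^ A ≤ h := by
      refine le_trans (Nat.pow_le_pow_left ?_ A) hNm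
      rw [hMM0, Finset.prod_image hm₀inj]
      exact Finset.prod_le_prod_of_subset_of_one_le' (fun p hp' => (hm₀' p hp').1)
        fun p _ _ => one_le_nm90 p.1
    -- the prescribed values
    have hpre : ∀ q : Pr k, ∃ p : Pr k × Fin ℓ, q ∈ MM0 → p ∈ m₀ ∧ p.1 = q := by
      intro q
      by_cases hq : q ∈ MM0
      · rw [hMM0] at hq
        obtain ⟨p, h1, h2⟩ := Finset.mem_image.1 hq
        exact ⟨p, fun _ => ⟨h1, h2⟩⟩
      · exact ⟨(q, ⟨0, hp.pos⟩), fun h' => absurd h' hq⟩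
    choose pr hpr using hpre
    have hmain := hlab MM0 (fun q hq => by
        obtain ⟨h1, h2⟩ := hpr q hq
        rw [← h2]
        exact hGdEx _ (hmEx _ (hm₀' _ h1).1))
      (fun q => t (pr q) (algebraMap k L a)) Y h hY hlog hnm E (by
      intro e he
      obtain ⟨h1, ⟨m', hOk, hmm', hem'⟩, h3, h4⟩ := hE e he
      have hoa : ∀ q ∈ e, (o q).1.1 = algebraMap k L a := by
        intro q hq
        obtain ⟨-, -, -, -, g5, g6⟩ := h3 q hq
        have g7 := Finset.mem_product.1 (Finset.mem_sigma.1 g5).1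
        have g8 : (o q).1.1 ∈ X.Fx q.1 := ((@Finset.mem_filter _ _ (_) _ _).1 g7.1).1
        exact X.cmp_alpha ha hm (Finset.mem_filter.1 g8).1 g6
      refine ⟨h1, ?_, ?_⟩
      · intro q hq
        obtain ⟨g1, g2, g3, g4, -⟩ := h3 q hq
        refine ⟨fun h0 => g1 ?_, hGdEx q g2, ?_, g4⟩
        · rw [h0]
          exact dvd_zero ℓ
        · intro hqM
          obtain ⟨g5, g6⟩ := hpr q.1 hqM
          have g7 : pr q.1 = q := hOk (hmm' (hm₀' _ g5).1) (hem' hq) g6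
          exact g3 (g7 ▸ (hm₀' _ g5).1)
      · intro q hq
        obtain ⟨g1, g2⟩ := hpr q hq
        obtain ⟨g3, g4⟩ := hm₀' _ g1
        refine Eq.trans ?_ (h4 (pr q) g3 (algebraMap k L a) g4)
        refine Finset.prod_congr rfl fun q' hq' => ?_
        change _ = chl X ℓ (pr q).1 (X.len (pr q).1 (algebraMap k L a))
          (aeval (algebraMap k L a) (X.B q'.1 (o q').1.1)) ^ w (o q').1.1 q'.2
        rw [hoa q' hq', X.len_alpha, X.aeval_bt, chl_eq, pow_one, g2])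
    rw [hcard, hwt] at hmain
    exact hmain
  refine hgoal.trans (le_of_eq ?_)
  have hl2 := hp.two_le
  have e1 : (((ℓ - 1 : ℕ) : ℝ) - 1) = ((ℓ - 2 : ℕ) : ℝ) := by
    rw [Nat.cast_sub (by omega), Nat.cast_sub (by omega)]
    push_cast
    ring
  rw [e1, Real.rpow_natCast, Real.rpow_natCast, div_pow]
  have e2 : Real.log Y ^ (ℓ - 1) = Real.log Y * Real.log Y ^ (ℓ - 2) := by
    rw [← pow_succ']
    congr 1
    omega
  rw [e2]
  have h1 := hlY.ne'
  have h2 : Real.log Y ^ (ℓ - 2) ≠ 0 := pow_ne_zero _ h1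
  have e3 : (h : ℝ) / Real.log Y * (Real.log h ^ (ℓ - 2) / Real.log Y ^ (ℓ - 2)) =
      h * Real.log h ^ (ℓ - 2) / (Real.log Y * Real.log Y ^ (ℓ - 2)) := by
    rw [div_mul_div_comm]
  rw [e3, mul_assoc]
  rfl

end Pool.Agent.PD
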