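import Pool.Agent.Helper97.PD.Defs
import Pool.Agent.Helper57.ML.G2
import Pool.Agent.Helper88.HG2.BTRb

/-!
# Project PD, block P4 (`StmtBTPL`), part 1: the small elements and their symbols of order `ℓ`
-/

set_option autoImplicit false

namespace Pool.Agent.PD

open Polynomial NumberField IsDedekindDomain Pool.Agent.Helper88.HG
open Pool.Agent.HG
open Pool.Agent.ML (HasMu sym chl zE57 em sym_spec sym_mul sym_prod sym_pow l_unit nm_one chl_eq
  l_dvd57 root_pow Vz)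
open scoped Pointwise IntermediateField

section

variable {k L : Type} [Field k] [NumberField k] [Field L] [NumberField L] [Algebra k L]
  [IsGalois k L] {f : k[X]} (X : Ctx k L f) {a : k} (ha : eval a f = 0)

include ha in
theorem quo90 {e : Finset (Pr k)} {x : 𝓞 k} {I : Ideal (𝓞 k)}
    (h : Ideal.span {x} = Jp e * I) (he : ∀ q ∈ e, Gd X.M q) {p : ℕ} {v : Pr k} (hp : p.Prime)
    (hpM : ¬ p ∣ X.M) (hpd : ¬ p ∣ (discr k).natAbs) (hpv : (p : 𝓞 k) ∈ v.asIdeal)
    (hvI : ¬ v.asIdeal ∣ I) : v.valuation k ((x : k) / ∏ q ∈ e, X.bt a q) = 1 := by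
  classical
  have hcast : (((p : 𝓞 k)) : k) = (p : k) := map_natCast (algebraMap (𝓞 k) k) p
  by_cases hv : v ∈ e
  · have h1 : v.valuation k (x : k) = v.valuation k (p : k) := by
      have := val_eq_of_not_mem_sq ((mem_iff_of_not_dvd h hvI).2 hv) (not_sq_of_not_dvd h hvI) hpv
        (not_mem_sq hp hpv hpd)
      rwa [hcast] at this
    have h2 : v.valuation k (∏ q ∈ e, X.bt a q) = v.valuation k (p : k) := by
      rw [← Finset.mul_prod_erase e _ hv, map_mul, X.bt_above ha hp hpM hpv, map_prod,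
        Finset.prod_eq_one, mul_one]
      intro q hq
      exact X.bt_unit ha (he q (Finset.mem_of_mem_erase hq)) ⟨p, hp, hpM, hpv⟩
        (Finset.ne_of_mem_erase hq).symm
    have h0 : v.valuation k (p : k) ≠ 0 := val_p_ne hp
    rw [map_div₀, h1, h2, div_self h0]
  · have h1 : v.valuation k (x : k) = 1 := by
      rw [val_int_one, mem_iff_of_not_dvd h hvI]
      exact hv
    have h2 : v.valuation k (∏ q ∈ e, X.bt a q) = 1 := by
      rw [map_prod, Finset.prod_eq_one]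
      intro q hq
      exact X.bt_unit ha (he q hq) ⟨p, hp, hpM, hpv⟩ fun h' => hv (h' ▸ hq)
    rw [map_div₀, h1, h2, div_one]

variable {ℓ : ℕ} (hp : ℓ.Prime) (hM : ℓ ∣ X.M) (hmu : ∃ ζ : k, IsPrimitiveRoot ζ ℓ)

include ha hp hM hmu in
theorem sym_x90 {e : Finset (Pr k)} {x : 𝓞 k} {I : Ideal (𝓞 k)}
    (h : Ideal.span {x} = Jp e * I) (he : ∀ q ∈ e, Gd X.M q) {v : Pr k} (hv : Gd X.M v)
    (hve : v ∉ e) (hvI : ¬ v.asIdeal ∣ I) {κ d : k} (hκ : v.valuation k κ = 1)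
    (hz : (x : k) / ∏ q ∈ e, X.bt a q = κ * d ^ ℓ) :
    sym k ℓ (X.P v) (nm v) (algebraMap k L (x : k)) = sym k ℓ (X.P v) (nm v) (algebraMap k L κ) *
      ∏ q ∈ e, sym k ℓ (X.P v) (nm v) (algebraMap k L (X.bt a q)) := by
  classical
  obtain ⟨hd1, hn1⟩ := l_dvd57 X hp hM hmu hv
  have hl : (X.P v).valuation L (ℓ : L) = 1 := by
    obtain ⟨p, h1, h2, h3⟩ := hv
    exact l_unit X hp hM h1 h2 h3
  have hx : v.valuation k (x : k) = 1 := by
    rw [val_int_one, mem_iff_of_not_dvd h hvI]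
    exact hve
  have hb : ∀ q ∈ e, v.valuation k (X.bt a q) = 1 := fun q hq =>
    X.bt_unit ha (he q hq) hv fun h' => hve (h' ▸ hq)
  have hB : v.valuation k (∏ q ∈ e, X.bt a q) = 1 := by
    rw [map_prod, Finset.prod_eq_one hb]
  have hB0 : ∏ q ∈ e, X.bt a q ≠ 0 := by
    intro h0
    rw [h0, map_zero] at hB
    exact zero_ne_one hB
  have hd : v.valuation k d = 1 := by
    have h3 := congrArg (v.valuation k) hz
    rw [map_div₀, map_mul, hB, hx, hκ, div_one, one_mul, map_pow] at h3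
    exact (pow_eq_one_iff_of_nonneg zero_le hp.ne_zero).1 h3.symm
  have hxe : (x : k) = (κ * d ^ ℓ) * ∏ q ∈ e, X.bt a q := by
    rw [← hz, div_mul_cancel₀ _ hB0]
  have hdp : v.valuation k (d ^ ℓ) = 1 := by rw [map_pow, hd, one_pow]
  have hκd : v.valuation k (κ * d ^ ℓ) = 1 := by rw [map_mul, hκ, hdp, one_mul]
  have h5 : sym k ℓ (X.P v) (nm v) (algebraMap k L (d ^ ℓ)) = 1 := by
    rw [map_pow, (sym_pow hp hl hmu hd1 hn1 (X.un_k v hd) ℓ).2, root_pow]
  rw [hxe, map_mul, sym_mul hp hl hmu hd1 hn1 (X.un_k v hκd) (X.un_k v hB), map_mul,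
    sym_mul hp hl hmu hd1 hn1 (X.un_k v hκ) (X.un_k v hdp), h5, mul_one, map_prod,
    sym_prod hp hl hmu hd1 hn1 _ _ fun q hq => X.un_k v (hb q hq)]

include hM hmu in
theorem mk_pow90 {v : Pr k} (hv : Gd X.M v) {x : 𝓞 k} (hx : x ∉ v.asIdeal) :
    Ideal.Quotient.mk v.asIdeal x ^ ((nm v - 1) / ℓ) = Ideal.Quotient.mk v.asIdeal
      (zE57 k k hp.ne_zero (sym k ℓ (X.P v) (nm v) (algebraMap k L (x : k)))) := by
  obtain ⟨hd1, hn1⟩ := l_dvd57 X hp hM hmu hv
  have hx1 : v.valuation k (x : k) = 1 := by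
    rw [val_int_one]
    exact hx
  have hsp := sym_spec (k := k) (P := X.P v) hp hmu (q := nm v) hd1 hn1 (X.un_k v hx1)
  rw [← map_pow, Ideal.Quotient.eq, ← val_int_lt]
  have h4 : (((x ^ ((nm v - 1) / ℓ) - zE57 k k hp.ne_zero
      (sym k ℓ (X.P v) (nm v) (algebraMap k L (x : k))) : 𝓞 k)) : k) =
      (x : k) ^ ((nm v - 1) / ℓ) - em k k (sym k ℓ (X.P v) (nm v) (algebraMap k L (x : k))) := by
    push_cast
    rfl
  rw [h4, ← val_lt_over (X.comap v), map_sub, map_pow]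
  exact hsp.2.2

end

end Pool.Agent.PD
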