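import Pool.Agent.Helper90.PD.BTPa

/-!
# Project PD, block P4 (`StmtBTPL`), part 2: sets of primes with one label
-/

set_option autoImplicit false

namespace Pool.Agent.PD

open Polynomial NumberField IsDedekindDomain Pool.Agent.Helper88.HG
open Pool.Agent.HG
open Pool.Agent.ML (HasMu sym chl zE57 em sym_spec sym_mul sym_prod sym_pow l_unit nm_one chl_eq
  l_dvd57 root_pow Vz)
open scoped Pointwise IntermediateField

theorem one90 (hB : StmtBTLP) (hSel : ML.StmtSel) {k L : Type} [Field k] [NumberField k] [Field L]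
    [NumberField L] [Algebra k L] [IsGalois k L] {f : k[X]} (X : Ctx k L f) {a : k}
    (ha : eval a f = 0) {ℓ : ℕ} (hp : ℓ.Prime) (hM : ℓ ∣ X.M)
    (hmu : ∃ ζ : k, IsPrimitiveRoot ζ ℓ) (K₁ : ℝ) (hK₁ : 1 ≤ K₁) :
    ∃ (C : ℝ) (A : ℕ), 0 < C ∧ ∀ (MM0 : Finset (Pr k)), (∀ p ∈ MM0, Gd X.M p) →
      ∀ (s : Pr k → rootsOfUnity ℓ k) (Y h : ℕ), 2 ≤ Y → 2 ≤ h →
      Real.log Y ≤ K₁ * Real.log h ^ (1 / 2 : ℝ) → (∏ p ∈ MM0, nm p) ^ A ≤ h →
      ∀ E : Finset (Finset (Pr k)), (∀ e ∈ E, ∏ q ∈ e, nm q ≤ h ∧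
        (∀ q ∈ e, Gd X.M q ∧ q ∉ MM0 ∧ Y < nm q) ∧
        ∀ p ∈ MM0, ∏ q ∈ e, sym k ℓ (X.P p) (nm p) (algebraMap k L (X.bt a q)) = s p) →
      (E.card : ℝ) ≤ C * ((1 / ℓ) ^ MM0.card * (h / Real.log Y)) := by
  classical
  -- the small elements
  obtain ⟨K₀, hK₀, hx⟩ := exists_xI k
  choose x I hx0 hxI hI hxs using hx
  obtain ⟨K, hK0K, hK1K⟩ : ∃ K : ℝ, K₀ ≤ K ∧ K₁ ≤ K := ⟨max K₀ K₁, le_max_left _ _, le_max_right _ _⟩
  have hK : 1 ≤ K := hK₀.trans hK0K
  have hI0 : ∀ e, I e ≠ ⊥ := by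
    intro e h
    have h1 := hxI e
    rw [h, ← Ideal.zero_eq_bot, mul_zero, Ideal.zero_eq_bot, Ideal.span_singleton_eq_bot] at h1
    exact hx0 e h1
  obtain ⟨N, hN⟩ := exists_nat_ge K
  have hIN : ∀ e, Ideal.absNorm (I e) ≤ N := fun e => by exact_mod_cast (hI e).trans (hK0K.trans hN)
  set n := Module.finrank ℚ k with hn
  have hl0 : (0 : ℝ) < ℓ := by exact_mod_cast hp.pos
  have hl1 : (1 / ℓ : ℝ) ≤ 1 := by
    rw [div_le_one hl0]
    exact_mod_cast hp.one_lt.le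
  -- the excluded primes
  obtain ⟨M₁, hM₁⟩ : ∃ M₁, M₁ = X.M * (discr k).natAbs * N.factorial := ⟨_, rfl⟩
  have hM₁0 : M₁ ≠ 0 := by
    rw [hM₁]
    exact mul_ne_zero (mul_ne_zero X.hM (Int.natAbs_ne_zero.2 (discr_ne_zero k)))
      (Nat.factorial_ne_zero _)
  have hdvd1 : ∀ p : ℕ, ¬ p ∣ M₁ → ¬ p ∣ X.M ∧ ¬ p ∣ (discr k).natAbs ∧ ¬ p ∣ N.factorial := by
    intro p hp
    rw [hM₁] at hp
    exact ⟨fun h => hp ((h.mul_right _).mul_right _), fun h => hp ((h.mul_left _).mul_right _),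
      fun h => hp (h.mul_left _)⟩
  have hvI : ∀ (p : ℕ) (v : Pr k), p.Prime → ¬ p ∣ M₁ → (p : 𝓞 k) ∈ v.asIdeal →
      ∀ e, ¬ v.asIdeal ∣ I e := by
    intro p v hp hpM hpv e
    apply not_dvd_of_lt (hI0 e)
    have h1 : N < p := by
      by_contra h
      exact (hdvd1 p hpM).2.2 ((Nat.Prime.dvd_factorial hp).2 (not_lt.1 h))
    have h2 := Nat.le_of_dvd (zero_lt_one.trans (one_lt_nm v)) (absNorm_mem_dvd hp hpv)
    exact (hIN e).trans_lt (h1.trans_le h2)
  -- the classes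
  obtain ⟨F, hF, hsel⟩ := hSel ℓ hp k k ⊤ M₁ hM₁0
  obtain ⟨M₂, hM₂, hunit⟩ := exists_M_unit (L := k) F fun z hz => (hF z hz).2
  have hM₃ : M₁ * M₂ ≠ 0 := mul_ne_zero hM₁0 hM₂
  have hfin₃ := finite_bad k hM₃
  obtain ⟨C, A, h₀, hC, hBT⟩ := hB ℓ hp k K hK
  have hfinI : {J : Ideal (𝓞 k) | Ideal.absNorm J ≤ N}.Finite := Ideal.finite_setOfPred_absNorm_le N
  set R := hfinI.toFinset with hR
  set c₀ := hfin₃.toFinset.card with hc₀
  have hκd : ∀ e : Finset (Pr k), ∃ κ d : k, (∀ q ∈ e, Gd X.M q) → κ ∈ F ∧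
      (x e : k) / ∏ q ∈ e, X.bt a q = κ * d ^ ℓ := by
    intro e
    by_cases he : ∀ q ∈ e, Gd X.M q
    · have hz0 : (x e : k) / ∏ q ∈ e, X.bt a q ≠ 0 := by
        refine div_ne_zero ?_ (Finset.prod_ne_zero_iff.2 fun q hq => X.bt_ne ha (he q hq))
        exact_mod_cast hx0 e
      obtain ⟨κ, hκ, d, -, h⟩ := hsel _ (IntermediateField.mem_top) hz0 (by
        intro p v hp hpM hpv
        obtain ⟨h1, h2, -⟩ := hdvd1 p hpM
        refine ⟨0, ?_⟩
        rw [mul_zero, sub_zero, zpow_zero, mul_one]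
        exact quo90 X ha (hxI e) he hp h1 h2 hpv (hvI p v hp hpM hpv e))
      exact ⟨κ, d, fun _ => ⟨hκ, h⟩⟩
    · exact ⟨0, 0, fun h => absurd h he⟩
  choose κ d hκd using hκd
  refine ⟨F.card * R.card * (C * ℓ ^ c₀) + 2 ^ (n * h₀) * (K₁ * (h₀ + 1)), A + 1, by positivity, ?_⟩
  intro MM0 hmGd s Y h hY hh2 hlog hNm E hE
  have hY' : (2 : ℝ) ≤ Y := by exact_mod_cast hY
  have hlY : 0 < Real.log Y := Real.log_pos (by linarith)
  have hh' : (2 : ℝ) ≤ h := by exact_mod_cast hh2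
  have hh0 : (0 : ℝ) < h := by linarith
  have hm1 : 1 ≤ ∏ p ∈ MM0, nm p := Finset.one_le_prod' fun p _ => (nm_two p).trans' one_le_two
  set w : ℝ := (1 / ℓ : ℝ) ^ MM0.card with hw
  have hw0 : 0 < w := by positivity
  have hEG : ∀ e ∈ E, ∀ q ∈ e, Gd X.M q ∧ q ∉ MM0 ∧ Y < nm q := fun e he => (hE e he).2.1
  have hEh : ∀ e ∈ E, ∏ q ∈ e, nm q ≤ h := fun e he => (hE e he).1
  have hG0 : 0 < (h : ℝ) / Real.log Y := div_pos hh0 hlY
  rw [add_mul]
  by_cases hhh : h < h₀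
  · -- small `h`
    let U : Finset (Pr k) := E.biUnion id
    have hU : U.card ≤ n * h₀ := by
      refine card_all U h₀ fun q hq => ?_
      obtain ⟨e, he, hqe⟩ := Finset.mem_biUnion.1 hq
      have h1 : nm q ≤ ∏ q ∈ e, nm q :=
        Nat.le_of_dvd (Finset.prod_pos fun q _ => zero_lt_one.trans (one_lt_nm q))
          (Finset.dvd_prod_of_mem _ hqe)
      exact h1.trans ((hEh e he).trans hhh.le)
    have h1 : E.card ≤ 2 ^ (n * h₀) := by
      have h2 : E ⊆ U.powerset := by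
        intro e he
        rw [Finset.mem_powerset]
        exact Finset.subset_biUnion_of_mem id he
      refine (Finset.card_le_card h2).trans ?_
      rw [Finset.card_powerset]
      exact Nat.pow_le_pow_right two_pos hU
    have h2 : (h : ℝ)⁻¹ ≤ w := by
      have h3 : ℓ ^ MM0.card ≤ h := by
        calc ℓ ^ MM0.card = ∏ p ∈ MM0, ℓ := by rw [Finset.prod_const]
          _ ≤ ∏ p ∈ MM0, nm p := Finset.prod_le_prod' fun p hp' => by
              obtain ⟨b1, b2⟩ := l_dvd57 X hp hM hmu (hmGd p hp')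
              have b3 := nm_two p
              have b4 := Nat.le_of_dvd (by omega) b1
              omega
          _ ≤ (∏ p ∈ MM0, nm p) ^ (A + 1) := Nat.le_self_pow (Nat.succ_ne_zero _) _
          _ ≤ h := hNm
      have h4 : (ℓ : ℝ) ^ MM0.card ≤ h := by exact_mod_cast h3
      rw [hw, one_div, inv_pow]
      exact inv_anti₀ (by positivity) h4
    have h3 : Real.log Y ≤ K₁ * ((h₀ : ℝ) + 1) := by
      refine hlog.trans (mul_le_mul_of_nonneg_left ?_ (by linarith))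
      have h4 : 0 ≤ Real.log h := Real.log_nonneg (by linarith)
      have h5 : Real.log h ≤ h := (Real.log_le_sub_one_of_pos hh0).trans (by linarith)
      have h6 : Real.log h ^ (1 / 2 : ℝ) ≤ Real.log h + 1 := by
        rw [← Real.sqrt_eq_rpow, Real.sqrt_le_left (by linarith)]
        nlinarith
      have h7 : (h : ℝ) ≤ h₀ := by exact_mod_cast hhh.le
      linarith
    have h4 : (1 : ℝ) ≤ K₁ * (h₀ + 1) * (w * (h / Real.log Y)) := by
      calc (1 : ℝ) ≤ K₁ * (h₀ + 1) / Real.log Y := (one_le_div hlY).2 h3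
        _ = K₁ * (h₀ + 1) * ((h : ℝ)⁻¹ * (h / Real.log Y)) := by
            field_simp
        _ ≤ K₁ * (h₀ + 1) * (w * (h / Real.log Y)) :=
            mul_le_mul_of_nonneg_left (mul_le_mul_of_nonneg_right h2 hG0.le) (by positivity)
    have h5 : (E.card : ℝ) ≤ 2 ^ (n * h₀) := by exact_mod_cast h1
    have h6 : (2 : ℝ) ^ (n * h₀) ≤ 2 ^ (n * h₀) * (K₁ * (h₀ + 1)) * (w * (h / Real.log Y)) := by
      rw [mul_assoc]
      exact le_mul_of_one_le_right (by positivity) h4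
    have h7 : 0 ≤ (F.card : ℝ) * R.card * (C * ℓ ^ c₀) * (w * (h / Real.log Y)) := by positivity
    linarith
  · -- large `h`
    rw [not_lt] at hhh
    let MM : Finset (Pr k) := MM0.filter fun v => Gd (M₁ * M₂) v
    have hMMm : ∀ q ∈ MM, q ∈ MM0 ∧ Gd (M₁ * M₂) q := fun q hq => Finset.mem_filter.1 hq
    have hMM1 : MM ⊆ MM0 := fun q hq => (hMMm q hq).1
    have hcard : MM0.card ≤ MM.card + c₀ := by
      rw [← Finset.card_filter_add_card_filter_not (s := MM0) (fun v => Gd (M₁ * M₂) v)]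
      refine Nat.add_le_add_left (Finset.card_le_card ?_) _
      intro v hv
      exact hfin₃.mem_toFinset.2 (Finset.mem_filter.1 hv).2
    have hwt : (1 / ℓ : ℝ) ^ MM.card ≤ ℓ ^ c₀ * w := by
      calc (1 / ℓ : ℝ) ^ MM.card = ℓ ^ c₀ * (1 / ℓ) ^ (MM.card + c₀) := by
            rw [pow_add, mul_comm ((1 / ℓ : ℝ) ^ MM.card), ← mul_assoc, ← mul_pow,
              mul_one_div_cancel hl0.ne', one_pow, one_mul]
        _ ≤ ℓ ^ c₀ * (1 / ℓ) ^ MM0.card := by
            refine mul_le_mul_of_nonneg_left ?_ (by positivity)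
            exact pow_le_pow_of_le_one (by positivity) hl1 hcard
        _ = ℓ ^ c₀ * w := rfl
    have hodd : ∀ q ∈ MM, ℓ ∣ nm q - 1 := fun q hq => (l_dvd57 X hp hM hmu (hmGd q (hMM1 hq))).1
    have hprod : (∏ q ∈ MM, nm q) ^ A ≤ h := by
      have h1 : ∏ q ∈ MM, nm q ≤ ∏ q ∈ MM0, nm q :=
        Finset.prod_le_prod_of_subset_of_one_le' hMM1 fun q _ _ => (nm_two q).trans' one_le_two
      refine (Nat.pow_le_pow_left h1 A).trans ((Nat.pow_le_pow_right hm1 (Nat.le_succ A)).trans hNm)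
    have hlog' : Real.log Y ≤ K * Real.log h ^ (1 / 2 : ℝ) := by
      refine hlog.trans (mul_le_mul_of_nonneg_right hK1K (Real.rpow_nonneg ?_ _))
      exact Real.log_nonneg (by linarith)
    -- one class
    have hone : ∀ (κ₀ : k) (J : Ideal (𝓞 k)), κ₀ ∈ F →
        ((E.filter fun e => (κ e, I e) = (κ₀, J)).card : ℝ) ≤
          C * (1 / ℓ) ^ MM.card * (h / Real.log Y) := by
      intro κ₀ J hκF
      set E' := E.filter fun e => (κ e, I e) = (κ₀, J) with hE'
      have hE'm : ∀ e ∈ E', e ∈ E ∧ κ e = κ₀ ∧ I e = J := by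
        intro e he
        obtain ⟨h1, h2⟩ := Finset.mem_filter.1 he
        exact ⟨h1, (Prod.ext_iff.1 h2).1, (Prod.ext_iff.1 h2).2⟩
      have hinj : Set.InjOn x E' := by
        intro e he e' he' hxx
        obtain ⟨-, -, h1⟩ := hE'm e he
        obtain ⟨-, -, h2⟩ := hE'm e' he'
        have h3 := hxI e
        rw [hxx, hxI e', h2, h1] at h3
        have hJ : J ≠ 0 := by
          rw [← h1]
          exact hI0 e
        exact (Jp_inj (mul_right_cancel₀ hJ h3)).symm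
      have hT := hBT h Y hhh hY hlog' MM hodd hprod
        (fun q => Ideal.Quotient.mk q.asIdeal (zE57 k k hp.ne_zero
          (sym k ℓ (X.P q) (nm q) (algebraMap k L κ₀) * s q)))
        (E'.image x) (by
        intro y hy
        obtain ⟨e, he, rfl⟩ := Finset.mem_image.1 hy
        obtain ⟨heE, hκe, -⟩ := hE'm e he
        have heG : ∀ q ∈ e, Gd X.M q := fun q hq => (hEG e heE q hq).1
        refine ⟨fun φ => (hxs e φ).trans ?_, hx0 e, ?_, ?_⟩
        · refine mul_le_mul hK0K ?_ (by positivity) (by linarith)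
          exact Real.rpow_le_rpow (Nat.cast_nonneg _) (by exact_mod_cast hEh e heE) (by positivity)
        · intro q hKq hqY hxq
          have h1 : ¬ q.asIdeal ∣ I e := by
            apply not_dvd_of_lt (hI0 e)
            exact_mod_cast (hI e).trans_lt (hK0K.trans_lt hKq)
          have h2 := (mem_iff_of_not_dvd (hxI e) h1).1 hxq
          exact absurd hqY (not_le.2 (hEG e heE q h2).2.2)
        · intro q hq
          obtain ⟨hqm, p, hpp, hpM, hpq⟩ := hMMm q hq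
          have hp1 : ¬ p ∣ M₁ := fun h' => hpM (h'.mul_right _)
          have hp2 : ¬ p ∣ M₂ := fun h' => hpM (h'.mul_left _)
          have hqe : q ∉ e := fun h' => (hEG e heE q h').2.1 hqm
          have h1 := hvI p q hpp hp1 hpq e
          have hxq : x e ∉ q.asIdeal := by
            rw [mem_iff_of_not_dvd (hxI e) h1]
            exact hqe
          refine ⟨hxq, ?_⟩
          have h2 := sym_x90 X ha hp hM hmu (hxI e) heG (hmGd q hqm) hqe h1
            (hunit p q hpp hp2 hpq κ₀ hκF) (by rw [← hκe]; exact (hκd e heG).2)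
          rw [mk_pow90 X hp hM hmu (hmGd q hqm) hxq, h2, (hE e heE).2.2 q hqm])
      rwa [Finset.card_image_of_injOn hinj] at hT
    have hsum : (E.card : ℝ) ≤ ((F ×ˢ R).card : ℝ) * (C * (1 / ℓ) ^ MM.card * (h / Real.log Y)) := by
      have h1 : ∀ e ∈ E, (κ e, I e) ∈ F ×ˢ R := by
        intro e he
        refine Finset.mem_product.2 ⟨(hκd e fun q hq => (hEG e he q hq).1).1, ?_⟩
        exact hfinI.mem_toFinset.2 (hIN e)
      rw [Finset.card_eq_sum_card_fiberwise h1, Nat.cast_sum, ← nsmul_eq_mul]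
      refine Finset.sum_le_card_nsmul _ _ _ fun b hb => ?_
      obtain ⟨κ₀, J⟩ := b
      exact hone κ₀ J (Finset.mem_product.1 hb).1
    have h1 : C * (1 / ℓ) ^ MM.card * (h / Real.log Y) ≤ C * ℓ ^ c₀ * (w * (h / Real.log Y)) := by
      have h2 := mul_le_mul_of_nonneg_right (mul_le_mul_of_nonneg_left hwt hC.le) hG0.le
      refine h2.trans (le_of_eq (by ring))
    have h2 : (E.card : ℝ) ≤ F.card * R.card * (C * ℓ ^ c₀) * (w * (h / Real.log Y)) := by
      rw [Finset.card_product, Nat.cast_mul] at hsum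
      refine hsum.trans ?_
      rw [mul_assoc ((F.card : ℝ) * R.card)]
      exact mul_le_mul_of_nonneg_left h1 (by positivity)
    have h3 : 0 ≤ (2 : ℝ) ^ (n * h₀) * (K₁ * (h₀ + 1)) * (w * (h / Real.log Y)) := by positivity
    linarith

end Pool.Agent.PD
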