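import Pool.Agent.Helper90.PD.BTPb
import Pool.Agent.Helper5.HG.BTL

/-!
# Project PD, block P4 (`StmtBTPL`), part 3: sets of primes with labels

The sets `e` are split according to the labels.  If all parts but the largest one are fixed, with
product of the norms `P`, then `one90` gives at most `h / P / log Y` sets, and the sum of `1 / P` is
at most `(C log h / log Y) ^ (ℓ - 2)`.
-/

set_option autoImplicit false

namespace Pool.Agent.PD

open Polynomial NumberField IsDedekindDomain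
open Pool.Agent.HG
open Pool.Agent.Helper99.HG (CD pf Nm)
open Pool.Agent.ML (HasMu sym chl chl_eq l_dvd57 root_pow_inv57 cdL OkL)
open scoped Pointwise IntermediateField

/-- the sum of the inverses of the norms of the sets of large primes with given labels -/
theorem sum_rest90 {k : Type} [Field k] [NumberField k] {B : ℕ → Finset (Pr k)}
    (hB : ∀ x v, v ∈ B x ↔ nm v ≤ x) {C : ℝ}
    (hC : ∀ x : ℕ, 2 ≤ x → |∑ v ∈ B x, (1 : ℝ) / nm v - Real.log (Real.log x)| ≤ C)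
    {ℓ : ℕ} (J : Finset (Fin ℓ)) {Y h : ℕ} (hY : 2 ≤ Y) (hYh : Y ≤ h)
    (S : Finset (Finset (Pr k × Fin ℓ)))
    (hS : ∀ r ∈ S, ∀ q ∈ r, q.2 ∈ J ∧ Y < nm q.1 ∧ nm q.1 ≤ h) :
    ∑ r ∈ S, (1 : ℝ) / ((∏ q ∈ r, nm q.1 : ℕ) : ℝ) ≤
      (Real.exp (2 * C) * (Real.log h / Real.log Y)) ^ J.card := by
  classical
  obtain ⟨W, hW⟩ : ∃ W : Finset (Pr k × Fin ℓ), W = (B h \ B Y) ×ˢ J := ⟨_, rfl⟩
  have hmem : ∀ r ∈ S, r ⊆ W := by
    intro r hr q hq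
    obtain ⟨h1, h2, h3⟩ := hS r hr q hq
    rw [hW, Finset.mem_product, Finset.mem_sdiff, hB, hB, not_le]
    exact ⟨⟨h3, h2⟩, h1⟩
  have hY' : (2 : ℝ) ≤ Y := by exact_mod_cast hY
  have hh' : (2 : ℝ) ≤ h := by exact_mod_cast hY.trans hYh
  have hlY : 0 < Real.log Y := Real.log_pos (by linarith)
  have hlh : 0 < Real.log h := Real.log_pos (by linarith)
  have hpos : ∀ v : Pr k, (0 : ℝ) ≤ 1 / nm v := fun v => by positivity
  have h1 : ∑ r ∈ S, (1 : ℝ) / ((∏ q ∈ r, nm q.1 : ℕ) : ℝ) ≤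
      ∑ r ∈ W.powerset, ∏ q ∈ r, (1 : ℝ) / nm q.1 := by
    calc ∑ r ∈ S, (1 : ℝ) / ((∏ q ∈ r, nm q.1 : ℕ) : ℝ) = ∑ r ∈ S, ∏ q ∈ r, (1 : ℝ) / nm q.1 := by
          refine Finset.sum_congr rfl fun r _ => ?_
          push_cast
          rw [Finset.prod_div_distrib, Finset.prod_const_one]
      _ ≤ _ := Finset.sum_le_sum_of_subset_of_nonneg
          (fun r hr => Finset.mem_powerset.2 (hmem r hr))
          fun r _ _ => Finset.prod_nonneg fun q _ => hpos q.1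
  have h2 : ∑ v ∈ B h \ B Y, (1 : ℝ) / nm v ≤
      2 * C + (Real.log (Real.log h) - Real.log (Real.log Y)) := by
    have h3 : B Y ⊆ B h := fun v hv => (hB h v).2 (((hB Y v).1 hv).trans hYh)
    have h4 := Finset.sum_sdiff (f := fun v => (1 : ℝ) / nm v) h3
    have h5 := (abs_le.1 (hC h (hY.trans hYh))).2
    have h6 := (abs_le.1 (hC Y hY)).1
    linarith
  refine h1.trans ?_
  rw [← Finset.prod_one_add]
  calc ∏ q ∈ W, (1 + (1 : ℝ) / nm q.1) ≤ ∏ q ∈ W, Real.exp ((1 : ℝ) / nm q.1) := by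
        refine Finset.prod_le_prod (fun q _ => by have := hpos q.1; linarith) fun q _ => ?_
        have := Real.add_one_le_exp ((1 : ℝ) / nm q.1)
        linarith
    _ = Real.exp (∑ q ∈ W, (1 : ℝ) / nm q.1) := (Real.exp_sum _ _).symm
    _ = Real.exp (J.card * ∑ v ∈ B h \ B Y, (1 : ℝ) / nm v) := by
        rw [hW, Finset.sum_product, Finset.mul_sum]
        congr 1
        refine Finset.sum_congr rfl fun v _ => ?_
        show ∑ _y ∈ J, (1 : ℝ) / nm v = _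
        rw [Finset.sum_const, nsmul_eq_mul]
    _ ≤ Real.exp (J.card * (2 * C + (Real.log (Real.log h) - Real.log (Real.log Y)))) :=
        Real.exp_le_exp.2 (mul_le_mul_of_nonneg_left h2 (Nat.cast_nonneg _))
    _ = (Real.exp (2 * C) * (Real.log h / Real.log Y)) ^ J.card := by
        rw [Real.exp_nat_mul, Real.exp_add, Real.exp_sub, Real.exp_log hlh, Real.exp_log hlY]

/-- the part with label `j` -/
def pa90 {k : Type} [Field k] [NumberField k] {ℓ : ℕ} (j : Fin ℓ) (e : Finset (Pr k × Fin ℓ)) :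
    Finset (Pr k × Fin ℓ) := e.filter fun q => q.2 = j

/-- the other parts -/
def re90 {k : Type} [Field k] [NumberField k] {ℓ : ℕ} (j : Fin ℓ) (e : Finset (Pr k × Fin ℓ)) :
    Finset (Pr k × Fin ℓ) := e.filter fun q => ¬ q.2 = j

/-- the norm -/
noncomputable def NN90 {k : Type} [Field k] [NumberField k] {ℓ : ℕ} (e : Finset (Pr k × Fin ℓ)) :
    ℕ := ∏ q ∈ e, nm q.1

section parts

variable {k : Type} [Field k] [NumberField k] {ℓ : ℕ}

theorem mem_pa90 {j : Fin ℓ} {e : Finset (Pr k × Fin ℓ)} {q : Pr k × Fin ℓ} :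
    q ∈ pa90 j e ↔ q ∈ e ∧ q.2 = j := Finset.mem_filter

theorem mem_re90 {j : Fin ℓ} {e : Finset (Pr k × Fin ℓ)} {q : Pr k × Fin ℓ} :
    q ∈ re90 j e ↔ q ∈ e ∧ ¬ q.2 = j := Finset.mem_filter

theorem one_le_nm90 (v : Pr k) : 1 ≤ nm v := (nm_two v).trans' one_le_two

theorem one_le_NN90 (e : Finset (Pr k × Fin ℓ)) : 1 ≤ NN90 e :=
  Finset.one_le_prod' fun p _ => one_le_nm90 p.1

theorem split90 (j : Fin ℓ) (e : Finset (Pr k × Fin ℓ)) :
    NN90 e = NN90 (pa90 j e) * NN90 (re90 j e) :=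
  (Finset.prod_filter_mul_prod_filter_not e (fun q => q.2 = j) (fun q => nm q.1)).symm

theorem nm_le_NN90 {e : Finset (Pr k × Fin ℓ)} {q : Pr k × Fin ℓ} (hq : q ∈ e) :
    nm q.1 ≤ NN90 e := by
  have h1 : ∀ i ∈ e, 1 ≤ nm i.1 := fun i _ => one_le_nm90 i.1
  exact Finset.single_le_prod' h1 hq

theorem NN_mono90 {e e' : Finset (Pr k × Fin ℓ)} (h : e ⊆ e') : NN90 e ≤ NN90 e' :=
  Finset.prod_le_prod_of_subset_of_one_le' h fun q _ _ => one_le_nm90 q.1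

theorem re_le90 {e : Finset (Pr k × Fin ℓ)} (he : ∀ q ∈ e, (q.2 : ℕ) ≠ 0) {j : Fin ℓ}
    (hj : ∀ i : Fin ℓ, (i : ℕ) ≠ 0 → NN90 (pa90 i e) ≤ NN90 (pa90 j e)) :
    NN90 (re90 j e) ≤ NN90 (pa90 j e) ^ ℓ := by
  classical
  have h1 : NN90 (re90 j e) = ∏ i : Fin ℓ, NN90 (pa90 i (re90 j e)) :=
    (Finset.prod_fiberwise (re90 j e) (fun q => q.2) (fun q => nm q.1)).symm
  rw [h1]
  calc ∏ i : Fin ℓ, NN90 (pa90 i (re90 j e)) ≤ ∏ _i : Fin ℓ, NN90 (pa90 j e) := by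
        refine Finset.prod_le_prod' fun i _ => ?_
        by_cases hi : (i : ℕ) = 0
        · have h2 : pa90 i (re90 j e) = ∅ := by
            rw [Finset.eq_empty_iff_forall_notMem]
            intro q hq
            obtain ⟨h2, h3⟩ := mem_pa90.1 hq
            exact he q (mem_re90.1 h2).1 (by rw [h3, hi])
          rw [h2]
          exact one_le_NN90 _
        · refine le_trans (NN_mono90 ?_) (hj i hi)
          intro q hq
          obtain ⟨h2, h3⟩ := mem_pa90.1 hq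
          exact mem_pa90.2 ⟨(mem_re90.1 h2).1, h3⟩
    _ = NN90 (pa90 j e) ^ ℓ := by rw [Finset.prod_const, Finset.card_univ, Fintype.card_fin]

theorem fst_inj90 (j : Fin ℓ) (e : Finset (Pr k × Fin ℓ)) :
    Set.InjOn Prod.fst (pa90 j e : Set (Pr k × Fin ℓ)) := by
  intro q hq q' hq' hqq
  have h2 := (mem_pa90.1 hq).2
  have h3 := (mem_pa90.1 hq').2
  exact Prod.ext hqq (h2.trans h3.symm)

open scoped Classical in
/-- the primes with label `j` -/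
noncomputable def fi90 (j : Fin ℓ) (e : Finset (Pr k × Fin ℓ)) : Finset (Pr k) :=
  (pa90 j e).image Prod.fst

open scoped Classical in
theorem prod_fi90 {M : Type} [CommMonoid M] (j : Fin ℓ) (e : Finset (Pr k × Fin ℓ))
    (F : Pr k → M) : ∏ q ∈ fi90 j e, F q = ∏ q ∈ pa90 j e, F q.1 :=
  Finset.prod_image (fst_inj90 j e)

theorem fi_sub90 {j : Fin ℓ} {e₁ e₂ : Finset (Pr k × Fin ℓ)} (g1 : fi90 j e₁ = fi90 j e₂)
    (g2 : re90 j e₁ = re90 j e₂) : e₁ ⊆ e₂ := by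
  classical
  intro q hq
  by_cases hqj : q.2 = j
  · have g3 : q.1 ∈ fi90 j e₁ := Finset.mem_image_of_mem _ (mem_pa90.2 ⟨hq, hqj⟩)
    rw [g1] at g3
    obtain ⟨q', g4, g5⟩ := Finset.mem_image.1 g3
    obtain ⟨g6, g7⟩ := mem_pa90.1 g4
    have g8 : q' = q := Prod.ext g5 (g7.trans hqj.symm)
    exact g8 ▸ g6
  · have g3 : q ∈ re90 j e₁ := mem_re90.2 ⟨hq, hqj⟩
    rw [g2] at g3
    exact (mem_re90.1 g3).1

theorem fi_eq90 {j : Fin ℓ} {e₁ e₂ : Finset (Pr k × Fin ℓ)} (g1 : fi90 j e₁ = fi90 j e₂)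
    (g2 : re90 j e₁ = re90 j e₂) : e₁ = e₂ :=
  Finset.Subset.antisymm (fi_sub90 g1 g2) (fi_sub90 g1.symm g2.symm)

end parts

theorem par90 {h N P ℓ : ℕ} (hl : 2 ≤ ℓ) (hh : 2 ≤ h) (hP : 1 ≤ P) (hN : N = 1 ∨ 2 ≤ N)
    (hNP : N * P ≤ h) (hPN : P ≤ N ^ ℓ) : 2 ≤ h / P ∧ h ≤ (h / P) ^ (2 * ℓ) := by
  have h1 : N ≤ h / P := by
    rw [Nat.le_div_iff_mul_le (by omega)]
    exact hNP
  have h2 : 2 ≤ h / P := by
    rcases hN with hN | hN
    · rw [hN, one_pow] at hPN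
      have h3 : P = 1 := by omega
      rw [h3, Nat.div_one]
      exact hh
    · exact hN.trans h1
  refine ⟨h2, ?_⟩
  have h3 : h < P * (h / P + 1) := Nat.lt_mul_div_succ h (by omega)
  have h4 : h / P + 1 ≤ (h / P) ^ 2 := by nlinarith
  calc h ≤ P * (h / P + 1) := h3.le
    _ ≤ (h / P) ^ ℓ * (h / P) ^ 2 := Nat.mul_le_mul (hPN.trans (Nat.pow_le_pow_left h1 ℓ)) h4
    _ = (h / P) ^ (ℓ + 2) := (pow_add _ _ _).symm
    _ ≤ (h / P) ^ (2 * ℓ) := Nat.pow_le_pow_right (by omega) (by omega)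

theorem log90 {h h' Y ℓ : ℕ} (hl : 2 ≤ ℓ) (hh : 2 ≤ h) (hh' : 2 ≤ h') (h1 : h ≤ h' ^ (2 * ℓ))
    (hlog : Real.log Y ≤ Real.log h ^ (1 / 2 : ℝ)) :
    Real.log Y ≤ (2 * ℓ : ℝ) * Real.log h' ^ (1 / 2 : ℝ) := by
  have hh0 : (0 : ℝ) < h := by exact_mod_cast (by omega : 0 < h)
  have hlh : 0 < Real.log h := Real.log_pos (by exact_mod_cast (by omega : 1 < h))
  have hlh' : 0 < Real.log h' := Real.log_pos (by exact_mod_cast (by omega : 1 < h'))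
  have hl' : (2 : ℝ) ≤ ℓ := by exact_mod_cast hl
  have h1 : Real.log h ≤ (2 * ℓ : ℝ) * Real.log h' := by
    have h2 : Real.log h ≤ Real.log ((h' : ℝ) ^ (2 * ℓ)) :=
      Real.log_le_log hh0 (by exact_mod_cast h1)
    rw [Real.log_pow] at h2
    push_cast at h2
    exact h2
  calc Real.log Y ≤ Real.log h ^ (1 / 2 : ℝ) := hlog
    _ ≤ ((2 * ℓ : ℝ) * Real.log h') ^ (1 / 2 : ℝ) :=
        Real.rpow_le_rpow hlh.le h1 (by norm_num)
    _ = (2 * ℓ : ℝ) ^ (1 / 2 : ℝ) * Real.log h' ^ (1 / 2 : ℝ) :=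
        Real.mul_rpow (by positivity) hlh'.le
    _ ≤ (2 * ℓ : ℝ) ^ (1 : ℝ) * Real.log h' ^ (1 / 2 : ℝ) := by
        refine mul_le_mul_of_nonneg_right ?_ (Real.rpow_nonneg hlh'.le _)
        exact Real.rpow_le_rpow_of_exponent_le (by linarith) (by norm_num)
    _ = _ := by rw [Real.rpow_one]

theorem two_le90 {h Y : ℕ} (hY : 2 ≤ Y) (hlog : Real.log Y ≤ Real.log h ^ (1 / 2 : ℝ)) :
    2 ≤ h ∧ Y ≤ h := by
  have hY' : (2 : ℝ) ≤ Y := by exact_mod_cast hY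
  have hlY : 0 < Real.log Y := Real.log_pos (by linarith)
  have hh2 : 2 ≤ h := by
    by_contra hlt
    have h1 : Real.log h = 0 := by
      have h2 : h = 0 ∨ h = 1 := by omega
      rcases h2 with rfl | rfl
      · simp
      · simp
    rw [h1, Real.zero_rpow (by norm_num)] at hlog
    exact absurd hlog (not_le.2 hlY)
  refine ⟨hh2, ?_⟩
  have hh' : (2 : ℝ) ≤ h := by exact_mod_cast hh2
  have hlh : 0 < Real.log h := Real.log_pos (by linarith)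
  by_contra hlt
  rw [not_le] at hlt
  have h1 : Real.log h < Real.log Y := Real.log_lt_log (by linarith) (by exact_mod_cast hlt)
  have h2 : Real.log h < 1 := by
    by_contra h3
    rw [not_lt] at h3
    have h4 : Real.log h ^ (1 / 2 : ℝ) ≤ Real.log h ^ (1 : ℝ) :=
      Real.rpow_le_rpow_of_exponent_le h3 (by norm_num)
    rw [Real.rpow_one] at h4
    linarith
  have h3 : Real.log h ^ (1 / 2 : ℝ) < 1 := Real.rpow_lt_one hlh.le h2 (by norm_num)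
  have h4 : (1 : ℝ) < Real.log 3 := by
    rw [Real.lt_log_iff_exp_lt (by norm_num)]
    exact Real.exp_one_lt_three
  have h5 : Real.log 3 ≤ Real.log Y := by
    refine Real.log_le_log (by norm_num) ?_
    exact_mod_cast (by omega : 3 ≤ Y)
  linarith

section lab

variable {k L : Type} [Field k] [NumberField k] [Field L] [NumberField L] [Algebra k L]
  [IsGalois k L] {f : k[X]} (X : Ctx k L f) {ℓ : ℕ}

/-- the conditions on a set `e` of primes with labels -/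
def Cond90 (a : k) (w : Fin ℓ → ℕ) (MM0 : Finset (Pr k)) (t : Pr k → rootsOfUnity ℓ k) (Y h : ℕ)
    (e : Finset (Pr k × Fin ℓ)) : Prop :=
  NN90 e ≤ h ∧ (∀ q ∈ e, (q.2 : ℕ) ≠ 0 ∧ Gd X.M q.1 ∧ q.1 ∉ MM0 ∧ Y < nm q.1) ∧
    ∀ p ∈ MM0, ∏ q ∈ e, sym k ℓ (X.P p) (nm p) (algebraMap k L (X.bt a q.1)) ^ w q.2 = t p

/-- one fibre -/
theorem fib90 {a : k} (hp : ℓ.Prime) {w : Fin ℓ → ℕ} {C : ℝ} (hC : 0 < C) {A : ℕ}
    (hone : ∀ (MM0 : Finset (Pr k)), (∀ p ∈ MM0, Gd X.M p) →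
      ∀ (s : Pr k → rootsOfUnity ℓ k) (Y h : ℕ), 2 ≤ Y → 2 ≤ h →
      Real.log Y ≤ (2 * ℓ : ℝ) * Real.log h ^ (1 / 2 : ℝ) → (∏ p ∈ MM0, nm p) ^ A ≤ h →
      ∀ E : Finset (Finset (Pr k)), (∀ e ∈ E, ∏ q ∈ e, nm q ≤ h ∧
        (∀ q ∈ e, Gd X.M q ∧ q ∉ MM0 ∧ Y < nm q) ∧
        ∀ p ∈ MM0, ∏ q ∈ e, sym k ℓ (X.P p) (nm p) (algebraMap k L (X.bt a q)) = s p) →
      (E.card : ℝ) ≤ C * ((1 / ℓ) ^ MM0.card * (h / Real.log Y)))
    {MM0 : Finset (Pr k)} (hmGd : ∀ p ∈ MM0, Gd X.M p) (t : Pr k → rootsOfUnity ℓ k) {Y h : ℕ}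
    (hY : 2 ≤ Y) (hlog : Real.log Y ≤ Real.log h ^ (1 / 2 : ℝ))
    (hNm : (∏ p ∈ MM0, nm p) ^ (A * (2 * ℓ)) ≤ h) {j : Fin ℓ} (hj : ¬ ℓ ∣ w j)
    (r : Finset (Pr k × Fin ℓ)) (E : Finset (Finset (Pr k × Fin ℓ)))
    (hE : ∀ e ∈ E, Cond90 X a w MM0 t Y h e ∧ re90 j e = r ∧
      ∀ i : Fin ℓ, (i : ℕ) ≠ 0 → NN90 (pa90 i e) ≤ NN90 (pa90 j e)) :
    (E.card : ℝ) ≤ C * ((1 / ℓ) ^ MM0.card * (h / Real.log Y)) * (1 / (NN90 r : ℝ)) := by
  classical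
  obtain ⟨hh2, hYh⟩ := two_le90 hY hlog
  have hY' : (2 : ℝ) ≤ Y := by exact_mod_cast hY
  have hlY : 0 < Real.log Y := Real.log_pos (by linarith)
  have hP1 := one_le_NN90 r
  rcases Finset.eq_empty_or_nonempty E with hem | ⟨e₀, he₀⟩
  · rw [hem, Finset.card_empty, Nat.cast_zero]
    positivity
  have hNP : ∀ e ∈ E, NN90 (pa90 j e) * NN90 r ≤ h := by
    intro e he
    obtain ⟨⟨h1, -⟩, h2, -⟩ := hE e he
    rw [split90 j e, h2] at h1
    exact h1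
  obtain ⟨⟨h1, h2, h3⟩, h4, h5⟩ := hE e₀ he₀
  have hPN := re_le90 (fun q hq => (h2 q hq).1) h5
  rw [h4] at hPN
  have hN1 : NN90 (pa90 j e₀) = 1 ∨ 2 ≤ NN90 (pa90 j e₀) := by
    have := one_le_NN90 (pa90 j e₀)
    omega
  obtain ⟨hh'2, hhh'⟩ := par90 hp.two_le hh2 hP1 hN1 (hNP e₀ he₀) hPN
  have hlog' := log90 hp.two_le hh2 hh'2 hhh' hlog
  obtain ⟨h', hh'⟩ : ∃ h', h' = h / NN90 r := ⟨_, rfl⟩
  rw [← hh'] at hh'2 hhh' hlog'
  have hNm' : (∏ p ∈ MM0, nm p) ^ A ≤ h' := by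
    have h1 : ((∏ p ∈ MM0, nm p) ^ A) ^ (2 * ℓ) ≤ h' ^ (2 * ℓ) := by
      rw [← pow_mul]
      exact hNm.trans hhh'
    have hl0 := hp.pos
    exact (Nat.pow_le_pow_iff_left (by omega)).1 h1
  have hinj : Set.InjOn (fi90 j) (E : Set (Finset (Pr k × Fin ℓ))) := by
    intro e he e' he' hee
    exact fi_eq90 hee ((hE e he).2.1.trans (hE e' he').2.1.symm)
  have hmain := hone MM0 hmGd (fun p => (t p * (∏ q ∈ r, sym k ℓ (X.P p) (nm p)
    (algebraMap k L (X.bt a q.1)) ^ w q.2)⁻¹) ^ (((w j % ℓ : ℕ) : ZMod ℓ)⁻¹).val) Y h' hY hh'2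
    hlog' hNm' (E.image (fi90 j)) (by
    intro e' he'
    obtain ⟨e, he, rfl⟩ := Finset.mem_image.1 he'
    obtain ⟨⟨g1, g2, g3⟩, g4, g5⟩ := hE e he
    refine ⟨?_, ?_, ?_⟩
    · rw [prod_fi90, hh', Nat.le_div_iff_mul_le (by omega)]
      exact hNP e he
    · intro q hq
      obtain ⟨q', hq', rfl⟩ := Finset.mem_image.1 hq
      exact (g2 q' (mem_pa90.1 hq').1).2
    · intro p hp'
      rw [prod_fi90]
      have h1 := g3 p hp'
      rw [← Finset.prod_filter_mul_prod_filter_not e (fun q => q.2 = j)] at h1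
      have h2 : ∏ q ∈ e.filter (fun q => ¬ q.2 = j), sym k ℓ (X.P p) (nm p)
          (algebraMap k L (X.bt a q.1)) ^ w q.2 = ∏ q ∈ r, sym k ℓ (X.P p) (nm p)
          (algebraMap k L (X.bt a q.1)) ^ w q.2 := by
        rw [← g4]
        rfl
      have h3 : ∏ q ∈ e.filter (fun q => q.2 = j), sym k ℓ (X.P p) (nm p)
          (algebraMap k L (X.bt a q.1)) ^ w q.2 = (∏ q ∈ pa90 j e, sym k ℓ (X.P p) (nm p)
          (algebraMap k L (X.bt a q.1))) ^ w j := by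
        rw [← Finset.prod_pow]
        refine Finset.prod_congr rfl fun q hq => ?_
        rw [(Finset.mem_filter.1 hq).2]
      rw [h2, h3] at h1
      rw [← h1, mul_inv_cancel_right]
      exact (root_pow_inv57 hp _ hj).symm)
  rw [Finset.card_image_of_injOn hinj] at hmain
  refine hmain.trans ?_
  have h6 : (h' : ℝ) ≤ h * (1 / (NN90 r : ℝ)) := by
    rw [mul_one_div, hh']
    exact Nat.cast_div_le
  have h7 : (h' : ℝ) / Real.log Y ≤ h / Real.log Y * (1 / (NN90 r : ℝ)) := by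
    rw [div_mul_eq_mul_div]
    exact div_le_div_of_nonneg_right h6 hlY.le
  have h8 : 0 ≤ C * (1 / ℓ : ℝ) ^ MM0.card := by positivity
  have h9 := mul_le_mul_of_nonneg_left h7 h8
  calc C * ((1 / ℓ : ℝ) ^ MM0.card * (h' / Real.log Y)) =
        C * (1 / ℓ : ℝ) ^ MM0.card * (h' / Real.log Y) := by ring
    _ ≤ C * (1 / ℓ : ℝ) ^ MM0.card * (h / Real.log Y * (1 / (NN90 r : ℝ))) := h9
    _ = _ := by ring

/-- the sets of primes with labels -/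
theorem lab90 (hB : StmtBTLP) (hSel : ML.StmtSel) (hMe : HG.StmtMert) {a : k}
    (ha : eval a f = 0) (hp : ℓ.Prime) (hM : ℓ ∣ X.M)
    (hmu : ∃ ζ : k, IsPrimitiveRoot ζ ℓ) (w : Fin ℓ → ℕ)
    (hw : ∀ j : Fin ℓ, (j : ℕ) ≠ 0 → ¬ ℓ ∣ w j) :
    ∃ (C : ℝ) (A : ℕ), 0 < C ∧ ∀ (MM0 : Finset (Pr k)), (∀ p ∈ MM0, Gd X.M p) →
      ∀ (t : Pr k → rootsOfUnity ℓ k) (Y h : ℕ), 2 ≤ Y →
      Real.log Y ≤ Real.log h ^ (1 / 2 : ℝ) → (∏ p ∈ MM0, nm p) ^ A ≤ h →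
      ∀ E : Finset (Finset (Pr k × Fin ℓ)), (∀ e ∈ E, Cond90 X a w MM0 t Y h e) →
      (E.card : ℝ) ≤ C * ((1 / ℓ) ^ MM0.card *
        (h / Real.log Y * (Real.log h / Real.log Y) ^ (ℓ - 2))) := by
  classical
  have hl2 : 2 ≤ ℓ := hp.two_le
  have hl2' : (2 : ℝ) ≤ ℓ := by exact_mod_cast hl2
  obtain ⟨C, A, hC, hone⟩ := one90 hB hSel X ha hp hM hmu (2 * ℓ) (by linarith)
  obtain ⟨B, hBB⟩ := exists_B5 k
  obtain ⟨C₀, hC₀⟩ := (hMe k B hBB).2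
  obtain ⟨J, hJ⟩ : ∃ J : Finset (Fin ℓ), ∀ j, j ∈ J ↔ (j : ℕ) ≠ 0 :=
    ⟨Finset.univ.filter fun j => (j : ℕ) ≠ 0, fun j => by simp⟩
  have hJne : J.Nonempty := ⟨⟨1, by omega⟩, (hJ _).2 (by simp)⟩
  have hJcard : J.card = ℓ - 1 := by
    have h1 : J = Finset.univ.erase ⟨0, by omega⟩ := by
      ext j
      rw [hJ, Finset.mem_erase]
      simp [Fin.ext_iff]
    rw [h1, Finset.card_erase_of_mem (Finset.mem_univ _), Finset.card_univ, Fintype.card_fin]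
  have hmax : ∀ e : Finset (Pr k × Fin ℓ), ∃ j ∈ J, ∀ i ∈ J, NN90 (pa90 i e) ≤ NN90 (pa90 j e) :=
    fun e => Finset.exists_max_image J (fun i => NN90 (pa90 i e)) hJne
  choose jj hjJ hjmax using hmax
  refine ⟨ℓ * (C * Real.exp (2 * C₀) ^ (ℓ - 2)), A * (2 * ℓ), by positivity, ?_⟩
  intro MM0 hmGd t Y h hY hlog hNm E hE
  obtain ⟨hh2, hYh⟩ := two_le90 hY hlog
  have hY' : (2 : ℝ) ≤ Y := by exact_mod_cast hY
  have hh' : (2 : ℝ) ≤ h := by exact_mod_cast hh2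
  have hlY : 0 < Real.log Y := Real.log_pos (by linarith)
  have hlh : 0 < Real.log h := Real.log_pos (by linarith)
  obtain ⟨G, hG⟩ : ∃ G : ℝ, G = (1 / ℓ) ^ MM0.card * (h / Real.log Y) := ⟨_, rfl⟩
  have hG0 : 0 ≤ G := by
    rw [hG]
    positivity
  obtain ⟨T, hT⟩ : ∃ T : ℝ, T = (Real.log h / Real.log Y) ^ (ℓ - 2) := ⟨_, rfl⟩
  have hT0 : 0 ≤ T := by
    rw [hT]
    positivity
  have hpart : ∀ j ∈ J, ((E.filter fun e => jj e = j).card : ℝ) ≤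
      C * G * (Real.exp (2 * C₀) ^ (ℓ - 2) * T) := by
    intro j hj
    obtain ⟨Ej, hEj⟩ : ∃ Ej, Ej = E.filter fun e => jj e = j := ⟨_, rfl⟩
    have hEj' : ∀ e ∈ Ej, e ∈ E ∧ jj e = j := fun e he => Finset.mem_filter.1 (hEj ▸ he)
    rw [← hEj]
    have hfib : ∀ r ∈ Ej.image (re90 j), ((Ej.filter fun e => re90 j e = r).card : ℝ) ≤
        C * G * (1 / (NN90 r : ℝ)) := by
      intro r _
      rw [hG]
      refine fib90 X hp hC hone hmGd t hY hlog hNm (hw j ((hJ j).1 hj)) r _ fun e he => ?_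
      obtain ⟨he1, he2⟩ := Finset.mem_filter.1 he
      obtain ⟨he3, he4⟩ := hEj' e he1
      exact ⟨hE e he3, he2, fun i hi => he4 ▸ hjmax e i ((hJ i).2 hi)⟩
    have hsum : (Ej.card : ℝ) ≤ ∑ r ∈ Ej.image (re90 j), C * G * (1 / (NN90 r : ℝ)) := by
      have h1 : Ej.card = ∑ r ∈ Ej.image (re90 j), (Ej.filter fun e => re90 j e = r).card :=
        Finset.card_eq_sum_card_fiberwise fun e he => Finset.mem_image_of_mem _ he
      rw [h1, Nat.cast_sum]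
      exact Finset.sum_le_sum hfib
    rw [← Finset.mul_sum] at hsum
    have hrest : ∑ r ∈ Ej.image (re90 j), 1 / (NN90 r : ℝ) ≤
        (Real.exp (2 * C₀) * (Real.log h / Real.log Y)) ^ (J.erase j).card := by
      refine sum_rest90 hBB hC₀ (J.erase j) hY hYh (Ej.image (re90 j)) fun r hr q hq => ?_
      obtain ⟨e, he, rfl⟩ := Finset.mem_image.1 hr
      obtain ⟨heE, hje⟩ := hEj' e he
      obtain ⟨hq1, hq2⟩ := mem_re90.1 hq
      obtain ⟨h1, h2, h3, h4⟩ := (hE e heE).2.1 q hq1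
      exact ⟨Finset.mem_erase.2 ⟨hq2, (hJ _).2 h1⟩, h4, (nm_le_NN90 hq1).trans (hE e heE).1⟩
    have hcard : (J.erase j).card = ℓ - 2 := by
      rw [Finset.card_erase_of_mem hj, hJcard]
      omega
    rw [hcard, mul_pow, ← hT] at hrest
    exact hsum.trans (mul_le_mul_of_nonneg_left hrest (mul_nonneg hC.le hG0))
  have htot : (E.card : ℝ) = ∑ j ∈ J, ((E.filter fun e => jj e = j).card : ℝ) := by
    have h1 : E.card = ∑ j ∈ J, (E.filter fun e => jj e = j).card :=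
      Finset.card_eq_sum_card_fiberwise fun e _ => hjJ e
    rw [h1, Nat.cast_sum]
  have hpos : 0 ≤ C * G * (Real.exp (2 * C₀) ^ (ℓ - 2) * T) :=
    mul_nonneg (mul_nonneg hC.le hG0) (mul_nonneg (by positivity) hT0)
  have hJl : (J.card : ℝ) ≤ ℓ := by
    rw [hJcard]
    exact_mod_cast (by omega : ℓ - 1 ≤ ℓ)
  have hsum2 : ∑ j ∈ J, ((E.filter fun e => jj e = j).card : ℝ) ≤
      J.card * (C * G * (Real.exp (2 * C₀) ^ (ℓ - 2) * T)) := by
    refine (Finset.sum_le_sum hpart).trans (le_of_eq ?_)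
    rw [Finset.sum_const, nsmul_eq_mul]
  have hfin2 := hsum2.trans (mul_le_mul_of_nonneg_right hJl hpos)
  rw [htot]
  refine hfin2.trans (le_of_eq ?_)
  rw [hG, hT]
  ring

end lab

end Pool.Agent.PD
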